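import Pool.Agent.MP_cce4c9_lc.H7.Spec

/-!
Norms from finite extensions of a function field of one variable over an algebraically closed
field are surjective.
-/

set_option autoImplicit false

open Module MvPolynomial
open scoped IntermediateField

namespace Pool.Agent.MP_cce4c9_lc.H62

open Pool.Agent.MP_cce4c9_lc.H87 Pool.Agent.MP_cce4c9_lc.H7

section A
variable {k : Type} [Field k] {σ : Type} [Fintype σ]

/-- Translation of the variables. -/
noncomputable def transl (a : σ → k) : MvPolynomial σ k ≃ₐ[k] MvPolynomial σ k :=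
  AlgEquiv.ofAlgHom (aeval fun i => X i + C (a i)) (aeval fun i => X i - C (a i))
    (by ext i; simp) (by ext i; simp)

theorem height_origin [IsAlgClosed k] :
    (vanishingIdeal k {(0 : σ → k)}).height = (Fintype.card σ : ℕ∞) := by
  have hdim : ringKrullDim (MvPolynomial σ k) = (Fintype.card σ : ℕ) := by
    rw [MvPolynomial.ringKrullDim_of_isNoetherianRing, ringKrullDim_eq_zero_of_field,
      Nat.card_eq_fintype_card, zero_add]
  have : FiniteRingKrullDim (MvPolynomial σ k) := by
    rw [finiteRingKrullDim_iff_ne_bot_and_top, hdim]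
    exact ⟨WithBot.coe_ne_bot, by
      intro h
      exact (ENat.natCast_ne_top (Fintype.card σ)) (WithBot.coe_injective h)⟩
  obtain ⟨p, hp, hh⟩ := Ideal.exists_isMaximal_height (R := MvPolynomial σ k)
  obtain ⟨a, rfl⟩ := isMaximal_iff_eq_vanishingIdeal_singleton.1 hp
  have he : vanishingIdeal k {a} =
      (vanishingIdeal k {(0 : σ → k)}).comap (transl a).toRingEquiv := by
    ext f
    rw [Ideal.mem_comap, mem_vanishingIdeal_singleton_iff, mem_vanishingIdeal_singleton_iff]
    have : (aeval (0 : σ → k)).comp (transl a).toAlgHom = aeval a := by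
      ext i; simp [transl]
    rw [← this]; rfl
  rw [he, RingEquiv.height_comap, hdim] at hh
  exact WithBot.coe_injective hh

/-- Fewer equations than unknowns, all vanishing at the origin: there is another solution. -/
theorem common_zero [IsAlgClosed k] {ι : Type} [Fintype ι] (f : ι → MvPolynomial σ k)
    (h0 : ∀ l, aeval (0 : σ → k) (f l) = 0) (hc : Fintype.card ι < Fintype.card σ) :
    ∃ x : σ → k, x ≠ 0 ∧ ∀ l, aeval x (f l) = 0 := by
  classical
  by_contra hno
  push Not at hno
  set s : Finset (MvPolynomial σ k) := Finset.univ.image f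
  have hz : zeroLocus k (Ideal.span (s : Set (MvPolynomial σ k))) = {0} := by
    rw [zeroLocus_span]
    ext x
    simp only [Set.mem_ofPred_eq, Set.mem_singleton_iff]
    constructor
    · intro hx
      by_contra hx0
      obtain ⟨l, hl⟩ := hno x hx0
      exact hl (hx _ (by simp [s]))
    · rintro rfl p hp
      simp only [s, Finset.coe_image, Finset.coe_univ, Set.image_univ, Set.mem_range] at hp
      obtain ⟨l, rfl⟩ := hp
      exact h0 l
  have hr := vanishingIdeal_zeroLocus_eq_radical (K := k) (Ideal.span (s : Set (MvPolynomial σ k)))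
  rw [hz] at hr
  have hm : vanishingIdeal k {(0 : σ → k)} ∈
      (Ideal.span (s : Set (MvPolynomial σ k))).minimalPrimes := by
    rw [← Ideal.radical_minimalPrimes, ← hr, Ideal.minimalPrimes_eq_subsingleton_self]
    rfl
  have h1 := Ideal.height_le_card_of_mem_minimalPrimes_span_finset hm
  rw [height_origin] at h1
  have h2 : s.card ≤ Fintype.card ι := Finset.card_image_le.trans (by simp)
  have h3 : Fintype.card σ ≤ s.card := by exact_mod_cast h1
  omega

/-- One equation with coefficients in a small subspace of a bigger field. -/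
theorem zero_of_coeffsIn [IsAlgClosed k] {K : Type} [Field K] [Algebra k K]
    (W : Submodule k K) [FiniteDimensional k W] (P : MvPolynomial σ K)
    (hP : P ∈ coeffsIn σ W) (h0 : eval (0 : σ → K) P = 0)
    (hc : finrank k W < Fintype.card σ) :
    ∃ x : σ → k, x ≠ 0 ∧ eval (fun i => algebraMap k K (x i)) P = 0 := by
  classical
  let β := Module.finBasis k W
  choose lam hlam using fun l => LinearMap.exists_extend (β.coord l)
  have hev : ∀ x : σ → k, eval (fun i => algebraMap k K (x i)) P =
      ∑ α ∈ P.support, (∏ i, x i ^ α i) • P.coeff α := by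
    intro x
    rw [eval_eq']
    refine Finset.sum_congr rfl fun α _ => ?_
    rw [Algebra.smul_def, mul_comm, map_prod]
    simp only [map_pow]
  let f : Fin (finrank k W) → MvPolynomial σ k :=
    fun l => ∑ α ∈ P.support, monomial α (lam l (P.coeff α))
  have hf : ∀ (x : σ → k) l, aeval x (f l) = lam l (eval (fun i => algebraMap k K (x i)) P) := by
    intro x l
    rw [hev, map_sum, map_sum]
    refine Finset.sum_congr rfl fun α _ => ?_
    rw [aeval_monomial, map_smul, Finsupp.prod_fintype _ _ (by simp), smul_eq_mul, mul_comm]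
    rfl
  obtain ⟨x, hx, hz⟩ := common_zero f (fun l => by
    rw [hf]
    have : (fun i => algebraMap k K ((0 : σ → k) i)) = 0 := by ext i; simp
    rw [this, h0, map_zero]) (by simpa using hc)
  refine ⟨x, hx, ?_⟩
  have hmem : eval (fun i => algebraMap k K (x i)) P ∈ W := by
    rw [hev]
    exact W.sum_mem fun α _ => W.smul_mem _ (hP α)
  have : (⟨_, hmem⟩ : W) = 0 := by
    refine β.ext_elem fun l => ?_
    have h1 := LinearMap.congr_fun (hlam l) ⟨_, hmem⟩
    simp only [LinearMap.comp_apply, Submodule.subtype_apply, Basis.coord_apply] at h1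
    rw [← h1, ← hf, hz l]; simp
  exact congrArg Subtype.val this

end A

section B
variable {k K : Type} [Field k] [Field K] [Algebra k K]

/-- Polynomials in `t` of degree at most `r`. -/
def T (k : Type) [Field k] [Algebra k K] (t : K) (r : ℕ) : Submodule k K :=
  Submodule.span k (Set.range fun m : Fin (r + 1) => t ^ (m : ℕ))

theorem pow_mem_T (t : K) {r m : ℕ} (h : m ≤ r) : t ^ m ∈ T k t r :=
  Submodule.subset_span ⟨⟨m, Nat.lt_succ_of_le h⟩, rfl⟩

theorem T_mono (t : K) {r s : ℕ} (h : r ≤ s) : T k t r ≤ T k t s := by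
  refine Submodule.span_le.2 ?_
  rintro _ ⟨m, rfl⟩
  exact pow_mem_T t ((Nat.le_of_lt_succ m.2).trans h)

theorem T_mul (t : K) (r s : ℕ) : T k t r * T k t s ≤ T k t (r + s) := by
  rw [T, T, Submodule.span_mul_span]
  refine Submodule.span_le.2 ?_
  rintro _ ⟨_, ⟨m, rfl⟩, _, ⟨m', rfl⟩, rfl⟩
  show t ^ (m : ℕ) * t ^ (m' : ℕ) ∈ _
  rw [← pow_add]
  exact pow_mem_T t (add_le_add (Nat.le_of_lt_succ m.2) (Nat.le_of_lt_succ m'.2))

theorem T_pow (t : K) (s n : ℕ) : T k t s ^ n ≤ T k t (n * s) := by
  induction n with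
  | zero =>
    rw [pow_zero, Submodule.one_eq_span, Submodule.span_le]
    rintro _ rfl
    simpa using pow_mem_T (k := k) t (r := 0 * s) (m := 0) (Nat.zero_le _)
  | succ n ih =>
    rw [pow_succ, add_mul, one_mul]
    exact (mul_le_mul_left ih _).trans (T_mul t _ _)

theorem aeval_mem_T (t : K) (p : Polynomial k) : Polynomial.aeval t p ∈ T k t p.natDegree := by
  rw [Polynomial.aeval_eq_sum_range]
  exact Submodule.sum_mem _ fun m hm => Submodule.smul_mem _ _
    (pow_mem_T t (Nat.le_of_lt_succ (Finset.mem_range.1 hm)))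

variable {t : K} {d : ℕ}

/-- Common denominators. -/
theorem denom_one (e : Basis (Fin d) k⟮t⟯ K) (u : K) :
    ∃ (q : K) (c : ℕ), q ≠ 0 ∧ q ∈ T k t c ∧
      q * u ∈ T k t c * Submodule.span k (Set.range e) := by
  classical
  have h1 : ∀ a : k⟮t⟯, ∃ (q : K) (c : ℕ), q ≠ 0 ∧ q ∈ T k t c ∧ q * (a : K) ∈ T k t c := by
    intro a
    obtain ⟨r, s, h⟩ := (IntermediateField.mem_adjoin_simple_iff k (a : K)).1 a.2
    by_cases hs : Polynomial.aeval t s = 0
    · refine ⟨1, 0, one_ne_zero, by simpa using pow_mem_T (k := k) t (le_refl 0), ?_⟩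
      rw [h, hs, div_zero, mul_zero]; exact zero_mem _
    · refine ⟨_, r.natDegree + s.natDegree, hs,
        T_mono t (Nat.le_add_left _ _) (aeval_mem_T t s), ?_⟩
      rw [h, mul_div_cancel₀ _ hs]
      exact T_mono t (Nat.le_add_right _ _) (aeval_mem_T t r)
  have h2 : ∀ S : Finset (Fin d), ∃ (q : K) (c : ℕ), q ≠ 0 ∧ q ∈ T k t c ∧
      q * ∑ j ∈ S, e.repr u j • e j ∈ T k t c * Submodule.span k (Set.range e) := by
    intro S
    induction S using Finset.induction_on with
    | empty => exact ⟨1, 0, one_ne_zero, by simpa using pow_mem_T (k := k) t (le_refl 0), by simp⟩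
    | insert j S hj ih =>
      obtain ⟨q, c, hq, hqc, hm⟩ := ih
      obtain ⟨q', c', hq', hqc', hm'⟩ := h1 (e.repr u j)
      refine ⟨q * q', c + c', mul_ne_zero hq hq', T_mul t _ _ (Submodule.mul_mem_mul hqc hqc'), ?_⟩
      rw [Finset.sum_insert hj, mul_add]
      refine add_mem ?_ ?_
      · have : q * q' * (e.repr u j • e j) = q * (q' * (e.repr u j : K)) * e j := by
          rw [IntermediateField.smul_def, smul_eq_mul]; ring
        rw [this]
        exact Submodule.mul_mem_mul (T_mul t _ _ (Submodule.mul_mem_mul hqc hm'))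
          (Submodule.subset_span ⟨j, rfl⟩)
      · have : q * q' * ∑ j ∈ S, e.repr u j • e j = q' * (q * ∑ j ∈ S, e.repr u j • e j) := by
          ring
        rw [this]
        have h3 := Submodule.mul_mem_mul hqc' hm
        rw [← mul_assoc] at h3
        rw [add_comm c c']
        exact mul_le_mul_left (T_mul t c' c) _ h3
  obtain ⟨q, c, hq, hqc, hm⟩ := h2 Finset.univ
  rw [e.sum_repr] at hm
  exact ⟨q, c, hq, hqc, hm⟩

theorem denom (e : Basis (Fin d) k⟮t⟯ K) (S : Finset K) :
    ∃ (q : K) (c : ℕ), q ≠ 0 ∧ q ∈ T k t c ∧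
      ∀ u ∈ Submodule.span k (S : Set K), q * u ∈ T k t c * Submodule.span k (Set.range e) := by
  classical
  have key : ∃ (q : K) (c : ℕ), q ≠ 0 ∧ q ∈ T k t c ∧
      ∀ u ∈ S, q * u ∈ T k t c * Submodule.span k (Set.range e) := by
    induction S using Finset.induction_on with
    | empty => exact ⟨1, 0, one_ne_zero, by simpa using pow_mem_T (k := k) t (le_refl 0), by simp⟩
    | insert v S hv ih =>
      obtain ⟨q, c, hq, hqc, hm⟩ := ih
      obtain ⟨q', c', hq', hqc', hm'⟩ := denom_one e v
      refine ⟨q * q', c + c', mul_ne_zero hq hq', T_mul t _ _ (Submodule.mul_mem_mul hqc hqc'), ?_⟩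
      intro u hu
      rcases Finset.mem_insert.1 hu with rfl | hu
      · have h3 := Submodule.mul_mem_mul hqc hm'
        rw [← mul_assoc, ← mul_assoc] at h3
        exact mul_le_mul_left (T_mul t _ _) _ h3
      · have h3 := Submodule.mul_mem_mul hqc' (hm u hu)
        rw [← mul_assoc, ← mul_assoc, mul_comm q' q] at h3
        rw [add_comm c c']
        exact mul_le_mul_left (T_mul t c' c) _ h3
  obtain ⟨q, c, hq, hqc, hm⟩ := key
  refine ⟨q, c, hq, hqc, fun u hu => ?_⟩
  induction hu using Submodule.span_induction with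
  | mem x hx => exact hm x hx
  | zero => simp
  | add x y _ _ hx hy => rw [mul_add]; exact add_mem hx hy
  | smul a x _ hx => rw [mul_smul_comm]; exact Submodule.smul_mem _ _ hx

/-- Linear growth of the dimension. -/
theorem growth (e : Basis (Fin d) k⟮t⟯ K) (U : Submodule k K) (hU : U.FG) :
    ∃ c : ℕ, ∀ r : ℕ, FiniteDimensional k (T k t r * U : Submodule k K) ∧
      finrank k (T k t r * U : Submodule k K) ≤ (r + c + 1) * d := by
  classical
  obtain ⟨S, rfl⟩ := hU
  obtain ⟨q, c, hq, -, hm⟩ := denom e S
  refine ⟨c, fun r => ?_⟩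
  let g : Fin (r + c + 1) × Fin d → K := fun p => q⁻¹ * (t ^ (p.1 : ℕ) * e p.2)
  have hle : T k t r * Submodule.span k (S : Set K) ≤ Submodule.span k (Set.range g) := by
    refine Submodule.mul_le.2 fun a ha u hu => ?_
    have h1 := Submodule.mul_mem_mul ha (hm u hu)
    rw [← mul_assoc] at h1
    have h2 := mul_le_mul_left (T_mul t r c) _ h1
    have h3 : ∀ y ∈ T k t (r + c) * Submodule.span k (Set.range e),
        q⁻¹ * y ∈ Submodule.span k (Set.range g) := by
      intro y hy
      rw [T, Submodule.span_mul_span] at hy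
      induction hy using Submodule.span_induction with
      | mem x hx =>
        obtain ⟨_, ⟨m, rfl⟩, _, ⟨j, rfl⟩, rfl⟩ := hx
        exact Submodule.subset_span ⟨(m, j), rfl⟩
      | zero => simp
      | add x y _ _ hx hy => rw [mul_add]; exact add_mem hx hy
      | smul a x _ hx => rw [mul_smul_comm]; exact Submodule.smul_mem _ _ hx
    have h4 := h3 _ h2
    have : q⁻¹ * (a * (q * u)) = a * u := by field_simp
    rwa [this] at h4
  have : FiniteDimensional k (Submodule.span k (Set.range g)) :=
    FiniteDimensional.span_of_finite k (Set.finite_range g)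
  refine ⟨Submodule.finiteDimensional_of_le hle, (Submodule.finrank_mono hle).trans ?_⟩
  exact (finrank_range_le_card g).trans (by simp)

theorem indep (ht : Transcendental k t) (e : Basis (Fin d) k⟮t⟯ K) (s : ℕ) :
    LinearIndependent k fun p : Fin (s + 1) × Fin d => t ^ (p.1 : ℕ) * e p.2 := by
  have h1 : LinearIndependent k fun m : ℕ => t ^ m := by
    have := (Polynomial.basisMonomials k).linearIndependent.map' (Polynomial.aeval t).toLinearMap
      (LinearMap.ker_eq_bot.2 (transcendental_iff_injective.1 ht))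
    have h0 : (fun m : ℕ => t ^ m) =
        (Polynomial.aeval t).toLinearMap ∘ (Polynomial.basisMonomials k) := by
      ext m; simp
    rw [h0]; exact this
  have h2 : LinearIndependent k
      fun m : Fin (s + 1) => (IntermediateField.AdjoinSimple.gen k t) ^ (m : ℕ) := by
    refine LinearIndependent.of_comp (k⟮t⟯.val.toLinearMap) ?_
    have := h1.comp (fun m : Fin (s + 1) => (m : ℕ)) Fin.val_injective
    convert this using 1
    ext m; simp
  have h3 := linearIndependent_smul h2 e.linearIndependent
  convert h3 using 1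
  ext p
  rw [IntermediateField.smul_def, smul_eq_mul]; simp

theorem prod_mem_pow {R : Type} [CommRing R] [Algebra k R] {ι : Type} (N : Submodule k R)
    (S : Finset ι) (x : ι → R) (hx : ∀ i, x i ∈ N) : ∏ i ∈ S, x i ∈ N ^ S.card := by
  classical
  induction S using Finset.induction_on with
  | empty => simpa using Submodule.one_le.1 (le_refl (1 : Submodule k R))
  | insert j S hj ih =>
    rw [Finset.prod_insert hj, Finset.card_insert_of_notMem hj, pow_succ']
    exact Submodule.mul_mem_mul (hx j) ih

end B

theorem tsen : StmtTSEN := by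
  intro k K L _ _ _ _ _ _ _ hK b
  classical
  obtain ⟨t, ht, hfd⟩ := hK
  set d := finrank k⟮t⟯ K
  set n := finrank K L
  have hd : 0 < d := finrank_pos
  have hn : 0 < n := finrank_pos
  let e : Basis (Fin d) k⟮t⟯ K := Module.finBasis _ _
  let β : Basis (Fin n) K L := Module.finBasis _ _
  let A : Fin n → Matrix (Fin n) (Fin n) K := fun i => Algebra.leftMulMatrix β (β i)
  let E : Submodule k K := Submodule.span k (Set.range e)
  let V : Submodule k K := Submodule.span k
    (insert 1 (Set.range fun p : Fin n × Fin n × Fin n => A p.1 p.2.1 p.2.2))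
  let B : Submodule k K := Submodule.span k {1, b}
  have hU : (B * (V * E) ^ n).FG := by
    refine Submodule.FG.mul (Submodule.fg_span (by simp)) (Submodule.FG.pow ?_ n)
    exact Submodule.FG.mul (Submodule.fg_span ((Set.finite_range _).insert _))
      (Submodule.fg_span (Set.finite_range _))
  obtain ⟨c, hc⟩ := growth e _ hU
  let s := c
  obtain ⟨hfin, hdim⟩ := hc (n * s)
  set W : Submodule k K := T k t (n * s) * (B * (V * E) ^ n)
  let g : Fin (s + 1) × Fin d → K := fun p => t ^ (p.1 : ℕ) * e p.2
  let σ := Option (Fin n) × (Fin (s + 1) × Fin d)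
  let Y : Option (Fin n) → MvPolynomial σ K := fun o => ∑ p, X (o, p) * C (g p)
  let Mt : Matrix (Fin n) (Fin n) (MvPolynomial σ K) := fun p q => ∑ i, Y (some i) * C (A i p q)
  let P : MvPolynomial σ K := Mt.det - C b * Y none ^ n
  let M : Submodule k K := T k t s * (V * E)
  have hY : ∀ o, Y o ∈ coeffsIn σ (T k t s * E) := fun o =>
    Submodule.sum_mem _ fun p _ => by
      rw [X_mul_mem_coeffsIn, C_mem_coeffsIn]
      exact Submodule.mul_mem_mul (pow_mem_T t (Nat.le_of_lt_succ p.1.2))
        (Submodule.subset_span ⟨p.2, rfl⟩)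
  have hYV : ∀ o, ∀ v ∈ V, Y o * C v ∈ coeffsIn σ M := by
    intro o v hv
    have h1 : M = T k t s * E * V := by simp only [M]; ring
    rw [h1, coeffsIn_mul]
    exact Submodule.mul_mem_mul (hY o) (C_mem_coeffsIn.2 hv)
  have hMt : ∀ p q, Mt p q ∈ coeffsIn σ M := fun p q =>
    Submodule.sum_mem _ fun i _ => hYV _ _ (Submodule.subset_span (Or.inr ⟨(i, p, q), rfl⟩))
  have hBM : ∀ v ∈ B, ∀ y ∈ coeffsIn σ M ^ n, C v * y ∈ coeffsIn σ W := by
    intro v hv y hy
    have h1 : C v * y ∈ coeffsIn σ (B * M ^ n) := by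
      rw [coeffsIn_mul]
      exact Submodule.mul_mem_mul (C_mem_coeffsIn.2 hv) (le_coeffsIn_pow hy)
    intro α
    have h2 : B * M ^ n ≤ W := by
      have : B * M ^ n = T k t s ^ n * (B * (V * E) ^ n) := by simp only [M]; ring
      rw [this]
      exact mul_le_mul_left (T_pow t s n) _
    exact h2 (h1 α)
  have hP : P ∈ coeffsIn σ W := by
    refine sub_mem ?_ ?_
    · rw [Matrix.det_apply]
      refine Submodule.sum_mem _ fun τ _ => ?_
      rw [Units.smul_def]
      refine zsmul_mem ?_ _
      have h1 : ∏ i, Mt (τ i) i ∈ coeffsIn σ M ^ n := by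
        have := prod_mem_pow (coeffsIn σ M) Finset.univ (fun i => Mt (τ i) i) (fun i => hMt _ _)
        simpa using this
      have := hBM 1 (Submodule.subset_span (by simp)) _ h1
      simpa using this
    · refine hBM b (Submodule.subset_span (by simp)) _ (Submodule.pow_mem_pow _ ?_ n)
      have := hYV none 1 (Submodule.subset_span (Or.inl rfl))
      simpa using this
  have hev : ∀ x : σ → K, eval x P =
      Algebra.norm K (∑ i, eval x (Y (some i)) • β i) - b * eval x (Y none) ^ n := by
    intro x
    rw [Algebra.norm_eq_matrix_det β]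
    simp only [P, map_sub, map_mul, map_pow, eval_C]
    rw [RingHom.map_det]
    congr 2
    ext p q
    simp [Mt, A, Matrix.sum_apply]
  have hcard : finrank k W < Fintype.card σ := by
    refine hdim.trans_lt ?_
    simp only [σ, Fintype.card_prod, Fintype.card_option, Fintype.card_fin]
    rw [← mul_assoc]
    refine Nat.mul_lt_mul_of_pos_right ?_ hd
    simp only [s]; nlinarith
  have hY0 : ∀ o, eval (0 : σ → K) (Y o) = 0 := fun o => by simp [Y]
  obtain ⟨x, hx, hz⟩ := zero_of_coeffsIn W P hP (by
    rw [hev]; simp only [hY0]; simp [hn.ne']) hcard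
  rw [hev, sub_eq_zero] at hz
  set y : σ → K := fun i => algebraMap k K (x i)
  have hYx : ∀ o, eval y (Y o) = 0 → ∀ p, x (o, p) = 0 := by
    intro o ho
    refine Fintype.linearIndependent_iff.1 (indep ht e s) (fun p => x (o, p)) ?_
    rw [← ho]
    simp [Y, y, g, Algebra.smul_def]
  by_cases hw : eval y (Y none) = 0
  · exfalso
    rw [hw, zero_pow hn.ne', mul_zero, Algebra.norm_eq_zero_iff] at hz
    have h1 := Fintype.linearIndependent_iff.1 β.linearIndependent _ hz
    apply hx
    ext ⟨o, p⟩
    cases o with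
    | none => exact hYx _ hw p
    | some i => exact hYx _ (h1 i) p
  · refine ⟨algebraMap K L (eval y (Y none))⁻¹ * ∑ i, eval y (Y (some i)) • β i, ?_⟩
    rw [map_mul, hz, Algebra.norm_algebraMap, inv_pow]
    have hw' : eval y (Y none) ^ n ≠ 0 := pow_ne_zero _ hw
    show (eval y (Y none) ^ n)⁻¹ * _ = b
    field_simp

end Pool.Agent.MP_cce4c9_lc.H62
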