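import Pool.Agent.MP_cce4c9_lc.H87.SpecQ
import Pool.Agent.MP_cce4c9_lc.H87.KitA

set_option autoImplicit false

open Polynomial

namespace Pool.Agent.MP_cce4c9_lc.H62

open Pool.Agent.MP_cce4c9_lc.H87

section Span

variable {K A : Type} [Field K] [CommRing A] [Algebra K A]

theorem pow_mem_span {d : ℕ} (F : K[X]) (hF : F.Monic) (hd : F.natDegree = d) (hd0 : 0 < d)
    (x : A) (hx : aeval x F = 0) (e : ℕ) :
    x ^ e ∈ Submodule.span K {y | ∃ j < d, y = x ^ j} := by
  have h1 : x ^ e = aeval x ((X : K[X]) ^ e %ₘ F) := by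
    rw [aeval_modByMonic_eq_self_of_root hx]; simp
  have hF1 : F ≠ 1 := by rintro rfl; simp at hd; omega
  have h2 : ((X : K[X]) ^ e %ₘ F).natDegree < d := hd ▸ natDegree_modByMonic_lt _ hF hF1
  rw [h1, aeval_eq_sum_range' h2]
  exact Submodule.sum_mem _ fun j hj => Submodule.smul_mem _ _
    (Submodule.subset_span ⟨j, Finset.mem_range.1 hj, rfl⟩)

theorem prod_mem_span {d m : ℕ} (F : K[X]) (hF : F.Monic) (hd : F.natDegree = d) (hd0 : 0 < d)
    (x : ℕ → A) (hx : ∀ i < m, aeval (x i) F = 0) (e : ℕ → ℕ) (n : ℕ) (hn : n ≤ m) :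
    ∏ i ∈ Finset.range n, x i ^ e i ∈ Submodule.span K
      {y | ∃ a : ℕ → ℕ, (∀ i < n, a i < d) ∧ y = ∏ i ∈ Finset.range n, x i ^ a i} := by
  induction n with
  | zero => exact Submodule.subset_span ⟨fun _ => 0, by simp, by simp⟩
  | succ n ih =>
    rw [Finset.prod_range_succ]
    have h := Submodule.mul_mem_mul (ih (by omega))
      (pow_mem_span F hF hd hd0 (x n) (hx n (by omega)) (e n))
    rw [Submodule.span_mul_span] at h
    refine Submodule.span_mono ?_ h
    rintro _ ⟨_, ⟨a, ha, rfl⟩, _, ⟨j, hj, rfl⟩, rfl⟩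
    refine ⟨fun i => if i = n then j else a i, fun i hi => ?_, ?_⟩
    · dsimp only
      split_ifs with h
      · exact hj
      · exact ha i (by omega)
    · rw [Finset.prod_range_succ]
      simp only [if_true]
      refine congrArg₂ (· * ·) (Finset.prod_congr rfl fun i hi => ?_) rfl
      rw [if_neg (Finset.mem_range.1 hi).ne]

/-- Linear combinations of the reduced monomials. -/
def comb (K : Type) [Field K] [Algebra K A] (d m : ℕ) (x : ℕ → A) : Submodule K A where
  carrier := {y | ∃ a : ℕ → K, y = ∑ J ∈ Finset.range (d ^ m),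
    algebraMap K A (a J) * ∏ i ∈ Finset.range m, x i ^ dig d J i}
  zero_mem' := ⟨0, by simp⟩
  add_mem' := by
    rintro _ _ ⟨a, rfl⟩ ⟨b, rfl⟩
    exact ⟨a + b, by simp [add_mul, Finset.sum_add_distrib]⟩
  smul_mem' := by
    rintro c _ ⟨a, rfl⟩
    exact ⟨fun J => c * a J, by simp [Finset.mul_sum, Algebra.smul_def, mul_assoc]⟩

theorem prod_mem_comb {d m : ℕ} (F : K[X]) (hF : F.Monic) (hd : F.natDegree = d) (hd0 : 0 < d)
    (x : ℕ → A) (hx : ∀ i < m, aeval (x i) F = 0) (e : ℕ → ℕ) :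
    ∏ i ∈ Finset.range m, x i ^ e i ∈ comb K d m x := by
  refine Submodule.span_le.2 ?_ (prod_mem_span F hF hd hd0 x hx e m le_rfl)
  rintro _ ⟨a, ha, rfl⟩
  obtain ⟨J, hJ, hJa⟩ := exists_dig a ha
  refine ⟨fun J' => if J' = J then 1 else 0, ?_⟩
  rw [Finset.sum_eq_single J]
  · simp only [if_true, map_one, one_mul]
    exact Finset.prod_congr rfl fun i hi => by rw [hJa i (Finset.mem_range.1 hi)]
  · intro b _ hb; simp [hb]
  · intro h; exact absurd (Finset.mem_range.2 hJ) h

end Span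

theorem grid {Ω : Type} [Field Ω] {d m : ℕ} (hd0 : 0 < d) (R : Finset Ω) (hR : R.card = d)
    (a : ℕ → Ω) (h : ∀ ξ : ℕ → Ω, (∀ i < m, ξ i ∈ R) →
      ∑ J ∈ Finset.range (d ^ m), a J * ∏ i ∈ Finset.range m, ξ i ^ dig d J i = 0) :
    ∀ J < d ^ m, a J = 0 := by
  classical
  let dg : ℕ → (Fin m →₀ ℕ) := fun J => Finsupp.equivFunOnFinite.symm fun i => dig d J i
  let P : MvPolynomial (Fin m) Ω :=
    ∑ J ∈ Finset.range (d ^ m), MvPolynomial.monomial (dg J) (a J)
  have hP : P = 0 := by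
    refine MvPolynomial.eq_zero_of_eval_zero_at_prod_finset P (fun _ => R) (fun i => ?_)
      (fun x hx => ?_)
    · rw [hR, MvPolynomial.degreeOf_lt_iff hd0]
      intro s hs
      have := MvPolynomial.support_sum hs
      obtain ⟨J, -, hJ⟩ := Finset.mem_biUnion.1 this
      have h2 := MvPolynomial.support_monomial_subset hJ
      rw [Finset.mem_singleton] at h2
      rw [h2]
      exact dig_lt hd0 J i
    · have := h (fun i => if hi : i < m then x ⟨i, hi⟩ else 0) (fun i hi => by
        simp only [hi, dif_pos]; exact hx _)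
      rw [← this, map_sum]
      refine Finset.sum_congr rfl fun J _ => ?_
      rw [MvPolynomial.eval_monomial, Finsupp.prod_fintype _ _ (by simp), Finset.prod_range]
      refine congrArg _ (Finset.prod_congr rfl fun i _ => ?_)
      simp [dg]
  intro J hJ
  have h1 : MvPolynomial.coeff (dg J) P = a J := by
    rw [MvPolynomial.coeff_sum, Finset.sum_eq_single J]
    · simp
    · intro b hb hbJ
      rw [MvPolynomial.coeff_monomial, if_neg]
      intro he
      refine hbJ (eq_of_dig (Finset.mem_range.1 hb) hJ fun i hi => ?_)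
      have := DFunLike.congr_fun he ⟨i, hi⟩
      simpa [dg] using this
    · intro h; exact absurd (Finset.mem_range.2 hJ) h
  rw [← h1, hP]; simp

theorem roots_ex {k Ω : Type} [Field k] [Field Ω] [IsAlgClosed Ω] [Algebra k Ω] {d : ℕ}
    (hd0 : 0 < d) (f : k[X]) (hf : f.Monic) (hd : f.natDegree = d) (hs : derivative f ≠ 0)
    (τ : Ω) (hτ : Transcendental k τ) :
    ∃ R : Finset Ω, R.card = d ∧ ∀ ξ ∈ R, aeval ξ f = τ := by
  classical
  set g : Polynomial Ω := f.map (algebraMap k Ω) - C τ with hg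
  have hgd : g.natDegree = d := by
    rw [hg, natDegree_sub_C, hf.natDegree_map, hd]
  have hg0 : g ≠ 0 := by rintro h; rw [h] at hgd; simp at hgd; omega
  have hroot : ∀ ξ, g.IsRoot ξ → aeval ξ f = τ := by
    intro ξ h
    rw [IsRoot.def, hg, eval_sub, eval_C, eval_map_algebraMap, sub_eq_zero] at h
    exact h
  have hnd : g.roots.Nodup := by
    rw [Multiset.nodup_iff_count_le_one]
    intro ξ
    rw [count_roots]
    by_contra hc
    obtain ⟨h1, h2⟩ := (one_lt_rootMultiplicity_iff_isRoot hg0).1 (not_le.1 hc)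
    rw [IsRoot.def, hg, derivative_sub, derivative_C, sub_zero, derivative_map,
      eval_map_algebraMap] at h2
    have h3 : IsIntegral k ξ := (show IsAlgebraic k ξ from ⟨_, hs, h2⟩).isIntegral
    have h4 : IsIntegral k (aeval ξ f) :=
      adjoin_le_integralClosure h3 (aeval_mem_adjoin_singleton k ξ)
    rw [hroot ξ h1] at h4
    exact hτ h4.isAlgebraic
  refine ⟨g.roots.toFinset, ?_, fun ξ hξ => hroot ξ ?_⟩
  · rw [Multiset.toFinset_card_of_nodup hnd, IsAlgClosed.card_roots_eq_natDegree, hgd]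
  · exact (mem_roots hg0).1 (Multiset.mem_toFinset.1 hξ)

section Model

variable (k : Type) [Field k] (m : ℕ) (f : k[X])

/-- The equations. -/
noncomputable def eqs (i : Fin m) : MvPolynomial (Fin m) (RatFunc k) :=
  aeval (MvPolynomial.X i : MvPolynomial (Fin m) (RatFunc k)) f - MvPolynomial.C RatFunc.X

/-- The ideal of the curve. -/
noncomputable def idl : Ideal (MvPolynomial (Fin m) (RatFunc k)) :=
  Ideal.span (Set.range (eqs k m f))

/-- The ring of rational functions. -/
abbrev QQ : Type := MvPolynomial (Fin m) (RatFunc k) ⧸ idl k m f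

/-- The coordinates. -/
noncomputable def xx (i : ℕ) : QQ k m f :=
  if h : i < m then Ideal.Quotient.mk _ (MvPolynomial.X ⟨i, h⟩) else 0

theorem xx_eqn (i : ℕ) (hi : i < m) :
    aeval (xx k m f i) f = algebraMap (RatFunc k) (QQ k m f) RatFunc.X := by
  have h : Ideal.Quotient.mk (idl k m f) (eqs k m f ⟨i, hi⟩) = 0 :=
    Ideal.Quotient.eq_zero_iff_mem.2 (Ideal.subset_span ⟨_, rfl⟩)
  rw [eqs, map_sub, sub_eq_zero] at h
  rw [xx, dif_pos hi]
  have h2 := aeval_algHom_apply (Ideal.Quotient.mkₐ k (idl k m f))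
    (MvPolynomial.X ⟨i, hi⟩ : MvPolynomial (Fin m) (RatFunc k)) f
  exact h2.trans h

theorem xx_lift (Ω : Type) [Field Ω] [Algebra k Ω] [Algebra (RatFunc k) Ω]
    [IsScalarTower k (RatFunc k) Ω] (ξ : ℕ → Ω)
    (h : ∀ i < m, aeval (ξ i) f = algebraMap (RatFunc k) Ω RatFunc.X) :
    ∃ φ : QQ k m f →ₐ[RatFunc k] Ω, ∀ i < m, φ (xx k m f i) = ξ i := by
  let ψ : MvPolynomial (Fin m) (RatFunc k) →ₐ[RatFunc k] Ω :=
    MvPolynomial.aeval fun i : Fin m => ξ i
  have hψ : ∀ y ∈ idl k m f, ψ y = 0 := by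
    intro y hy
    have : idl k m f ≤ RingHom.ker ψ.toRingHom := by
      refine Ideal.span_le.2 ?_
      rintro _ ⟨i, rfl⟩
      change ψ (eqs k m f i) = 0
      have h2 := aeval_algHom_apply (ψ.restrictScalars k)
        (MvPolynomial.X i : MvPolynomial (Fin m) (RatFunc k)) f
      rw [eqs, map_sub, sub_eq_zero]
      refine h2.symm.trans ?_
      simp only [ψ, AlgHom.restrictScalars_apply, MvPolynomial.aeval_X, MvPolynomial.aeval_C]
      exact h i i.2
    exact this hy
  refine ⟨Ideal.Quotient.liftₐ _ ψ hψ, fun i hi => ?_⟩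
  rw [xx, dif_pos hi]
  simp [ψ]

theorem xx_spn {d : ℕ} (hd0 : 0 < d) (hf : f.Monic) (hd : f.natDegree = d) (y : QQ k m f) :
    y ∈ comb (RatFunc k) d m (xx k m f) := by
  set F : (RatFunc k)[X] := f.map (algebraMap k (RatFunc k)) - C RatFunc.X with hF
  have hfd : (f.map (algebraMap k (RatFunc k))).natDegree = d := by rw [hf.natDegree_map, hd]
  have hFd : F.natDegree = d := by rw [hF, natDegree_sub_C, hfd]
  have hFm : F.Monic := by
    refine (hf.map _).sub_of_left (lt_of_le_of_lt degree_C_le ?_)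
    exact natDegree_pos_iff_degree_pos.1 (by omega)
  have hx : ∀ i < m, aeval (xx k m f i) F = 0 := by
    intro i hi
    rw [hF, map_sub, aeval_C, aeval_map_algebraMap, xx_eqn k m f i hi, sub_self]
  obtain ⟨P, rfl⟩ := Ideal.Quotient.mk_surjective y
  induction P using MvPolynomial.induction_on' with
  | add p q hp hq => rw [map_add]; exact Submodule.add_mem _ hp hq
  | monomial e c =>
    have h := prod_mem_comb F hFm hFd hd0 (xx k m f) hx
      (fun i => if hi : i < m then e ⟨i, hi⟩ else 0)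
    have e1 : Ideal.Quotient.mk (idl k m f) (MvPolynomial.monomial e c) =
        algebraMap (RatFunc k) (QQ k m f) c *
          ∏ i ∈ Finset.range m, xx k m f i ^ (if hi : i < m then e ⟨i, hi⟩ else 0) := by
      rw [MvPolynomial.monomial_eq, Finsupp.prod_fintype _ _ (by simp), map_mul, map_prod,
        Finset.prod_range]
      refine congrArg₂ (· * ·) rfl (Finset.prod_congr rfl fun i _ => ?_)
      simp [xx]
    rw [e1, ← Algebra.smul_def]
    exact Submodule.smul_mem _ _ h

theorem xx_key {d : ℕ} (hd0 : 0 < d) (hf : f.Monic) (hd : f.natDegree = d)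
    (hs : derivative f ≠ 0) (a : ℕ → RatFunc k)
    (h : ∀ φ : QQ k m f →ₐ[RatFunc k] AlgebraicClosure (RatFunc k),
      φ (∑ J ∈ Finset.range (d ^ m), algebraMap (RatFunc k) (QQ k m f) (a J) *
        ∏ i ∈ Finset.range m, xx k m f i ^ dig d J i) = 0) : ∀ J < d ^ m, a J = 0 := by
  have hinj := (algebraMap (RatFunc k) (AlgebraicClosure (RatFunc k))).injective
  have hτ : Transcendental k
      (algebraMap (RatFunc k) (AlgebraicClosure (RatFunc k)) RatFunc.X) :=
    (transcendental_algebraMap_iff hinj).2 RatFunc.transcendental_X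
  obtain ⟨R, hR, hroot⟩ := roots_ex hd0 f hf hd hs _ hτ
  intro J hJ
  refine hinj ?_
  rw [map_zero]
  refine grid hd0 R hR (fun J => algebraMap (RatFunc k) _ (a J)) (fun ξ hξ => ?_) J hJ
  obtain ⟨φ, hφ⟩ := xx_lift k m f _ ξ fun i hi => hroot _ (hξ i hi)
  rw [← h φ, map_sum]
  refine Finset.sum_congr rfl fun J _ => ?_
  rw [map_mul, AlgHom.commutes, map_prod]
  refine congrArg _ (Finset.prod_congr rfl fun i hi => ?_)
  rw [map_pow, hφ i (Finset.mem_range.1 hi)]

theorem xx_red {d : ℕ} (hd0 : 0 < d) (hf : f.Monic) (hd : f.natDegree = d)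
    (hs : derivative f ≠ 0) : IsReduced (QQ k m f) := by
  refine ⟨fun y hy => ?_⟩
  obtain ⟨a, rfl⟩ := xx_spn k m f hd0 hf hd y
  have := xx_key k m f hd0 hf hd hs a fun φ => (hy.map φ).eq_zero
  exact Finset.sum_eq_zero fun J hJ => by rw [this J (Finset.mem_range.1 hJ)]; simp

theorem xx_fin {d : ℕ} (hd0 : 0 < d) (hf : f.Monic) (hd : f.natDegree = d) :
    Module.Finite (RatFunc k) (QQ k m f) := by
  classical
  refine ⟨⟨(Finset.range (d ^ m)).image fun J => ∏ i ∈ Finset.range m, xx k m f i ^ dig d J i,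
    ?_⟩⟩
  rw [eq_top_iff]
  intro y _
  obtain ⟨a, rfl⟩ := xx_spn k m f hd0 hf hd y
  refine Submodule.sum_mem _ fun J hJ => ?_
  rw [← Algebra.smul_def]
  exact Submodule.smul_mem _ _ (Submodule.subset_span (Finset.mem_coe.2
    (Finset.mem_image_of_mem _ hJ)))

theorem xx_aut (θ : k ≃+* k) (hθ : f.map (θ : k →+* k) = f) :
    ∃ σ : QQ k m f ≃+* QQ k m f,
      (∀ c : k, σ (algebraMap k _ c) = algebraMap k _ (θ c)) ∧
      σ (algebraMap (RatFunc k) _ RatFunc.X) = algebraMap (RatFunc k) _ RatFunc.X ∧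
      ∀ i < m, σ (xx k m f i) = xx k m f i := by
  let θK : RatFunc k ≃+* RatFunc k := IsFractionRing.ringEquivOfRingEquiv (mapEquiv θ)
  have hX : θK RatFunc.X = RatFunc.X := by
    have := IsFractionRing.ringEquivOfRingEquiv_algebraMap (K := RatFunc k) (L := RatFunc k)
      (mapEquiv θ) X
    rw [show mapEquiv θ X = X by simp] at this
    exact this
  have hC : ∀ c : k, θK (algebraMap k _ c) = algebraMap k _ (θ c) := by
    intro c
    have := IsFractionRing.ringEquivOfRingEquiv_algebraMap (K := RatFunc k) (L := RatFunc k)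
      (mapEquiv θ) (C c)
    rw [show mapEquiv θ (C c) = C (θ c) by simp] at this
    exact this
  let θP : MvPolynomial (Fin m) (RatFunc k) ≃+* MvPolynomial (Fin m) (RatFunc k) :=
    MvPolynomial.mapEquiv (Fin m) θK
  have hPC : ∀ r : RatFunc k, θP (MvPolynomial.C r) = MvPolynomial.C (θK r) := by
    intro r; simp [θP]
  have hPX : ∀ i, θP (MvPolynomial.X i) = MvPolynomial.X i := by
    intro i; simp [θP]
  have hPk : ∀ c : k, θP (algebraMap k _ c) = algebraMap k _ (θ c) := by
    intro c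
    rw [MvPolynomial.algebraMap_apply, MvPolynomial.algebraMap_apply, hPC, hC]
  have hE : ∀ i, θP (eqs k m f i) = eqs k m f i := by
    intro i
    have h2 := map_aeval_eq_aeval_map (φ := (θ : k →+* k)) (ψ := θP.toRingHom)
      (RingHom.ext fun c => (hPk c).symm) f (MvPolynomial.X i)
    rw [eqs, map_sub, hPC, hX]
    refine congrArg₂ (· - ·) (h2.trans ?_) rfl
    rw [hθ]
    exact congrArg (fun z => aeval z f) (hPX i)
  have hI : idl k m f = (idl k m f).map (θP : _ →+* _) := by
    rw [idl, Ideal.map_span, ← Set.range_comp]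
    exact congrArg (fun g => Ideal.span (Set.range g)) (funext fun i => (hE i).symm)
  refine ⟨Ideal.quotientEquiv _ _ θP hI, fun c => ?_, ?_, fun i hi => ?_⟩
  · exact congrArg (Ideal.Quotient.mk (idl k m f)) (hPk c)
  · exact congrArg (Ideal.Quotient.mk (idl k m f)) ((hPC RatFunc.X).trans (congrArg MvPolynomial.C hX))
  · rw [xx, dif_pos hi]
    exact congrArg (Ideal.Quotient.mk (idl k m f)) (hPX _)

end Model

theorem model : StmtMODEL := by
  intro k _ _ p a d m _ _ f hm hd hf hdeg hs hc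
  have hd0 : 0 < d := by omega
  have := xx_fin k m f hd0 hf hdeg
  have := xx_red k m f hd0 hf hdeg hs
  let C : Cv k d m f :=
    { Q := QQ k m f
      x := xx k m f
      hm := hm
      hd := hd
      monic := hf
      deg := hdeg
      sep := hs
      eqn := xx_eqn k m f
      ind := fun b hb => xx_key k m f hd0 hf hdeg hs b fun φ => by rw [hb, map_zero]
      spn := xx_spn k m f hd0 hf hdeg
      lift := fun Ω _ _ _ _ ξ h => xx_lift k m f Ω ξ h }
  let θ : k ≃+* k := iterateFrobeniusEquiv k p a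
  have hθc : ∀ c, θ c = c ^ p ^ a := fun c => rfl
  have hθ : f.map (θ : k →+* k) = f := by
    ext i
    rw [coeff_map]
    exact hc i
  obtain ⟨σ, h1, h2, h3⟩ := xx_aut k m f θ hθ
  have hSA : σ ∈ SA k (QQ k m f) := by
    intro x
    constructor
    · rintro ⟨c, hc⟩
      refine ⟨θ.symm c, σ.injective ?_⟩
      rw [h1, θ.apply_symm_apply, hc]
    · rintro ⟨c, rfl⟩
      exact ⟨θ c, (h1 c).symm⟩
  refine ⟨C, ⟨⟨σ, hSA⟩, h2, ?_, h3⟩, fun c => h1 c⟩
  change σ (∏ i ∈ Finset.range m, aeval (xx k m f i) (derivative f)) =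
    ∏ i ∈ Finset.range m, aeval (xx k m f i) (derivative f)
  rw [map_prod]
  refine Finset.prod_congr rfl fun i hi => ?_
  have h4 := map_aeval_eq_aeval_map (φ := (θ : k →+* k)) (ψ := σ.toRingHom)
    (RingHom.ext fun c => (h1 c).symm) (derivative f) (xx k m f i)
  refine h4.trans ?_
  rw [← derivative_map, hθ]
  exact congrArg (fun z => aeval z (derivative f)) (h3 i (Finset.mem_range.1 hi))

end Pool.Agent.MP_cce4c9_lc.H62
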