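import Pool.Agent.MP_cce4c9_lc.H87.SpecQ
import Pool.Agent.MP_cce4c9_lc.H87.KitA

set_option autoImplicit false

open Polynomial

namespace Pool.Agent.MP_cce4c9_lc.H62

open Pool.Agent.MP_cce4c9_lc.H87 Pool.Agent.MP_cce4c9_lc.H87.Cv

variable {k : Type} [Field k] {d m : ℕ} {f : k[X]} {C : Cv k d m f}

/-- Congruence modulo a power of the parameter at infinity. -/
def Cg (C : Cv k d m f) (n : ℕ) (a b : C.Q) : Prop := ∃ r ∈ C.AI, a - b = C.s ^ n * r

theorem Cg.rf (n : ℕ) (a : C.Q) : Cg C n a a := ⟨0, zero_mem _, by simp⟩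

theorem Cg.sy {n : ℕ} {a b : C.Q} (h : Cg C n a b) : Cg C n b a := by
  obtain ⟨r, hr, e⟩ := h
  exact ⟨-r, neg_mem hr, by linear_combination -e⟩

theorem Cg.tr {n : ℕ} {a b c : C.Q} (h : Cg C n a b) (h' : Cg C n b c) : Cg C n a c := by
  obtain ⟨r, hr, e⟩ := h
  obtain ⟨r', hr', e'⟩ := h'
  exact ⟨r + r', add_mem hr hr', by linear_combination e + e'⟩

theorem Cg.ad {n : ℕ} {a b a' b' : C.Q} (h : Cg C n a a') (h' : Cg C n b b') :
    Cg C n (a + b) (a' + b') := by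
  obtain ⟨r, hr, e⟩ := h
  obtain ⟨r', hr', e'⟩ := h'
  exact ⟨r + r', add_mem hr hr', by linear_combination e + e'⟩

theorem Cg.mu {n : ℕ} {a b a' b' : C.Q} (ha : a ∈ C.AI) (hb : b' ∈ C.AI) (h : Cg C n a a')
    (h' : Cg C n b b') : Cg C n (a * b) (a' * b') := by
  obtain ⟨r, hr, e⟩ := h
  obtain ⟨r', hr', e'⟩ := h'
  exact ⟨a * r' + r * b', add_mem (mul_mem ha hr') (mul_mem hr hb),
    by linear_combination a * e' + b' * e⟩

theorem Cg.pw {n : ℕ} {a a' : C.Q} (ha : a ∈ C.AI) (ha' : a' ∈ C.AI) (h : Cg C n a a') (e : ℕ) :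
    Cg C n (a ^ e) (a' ^ e) := by
  induction e with
  | zero => simpa using Cg.rf n 1
  | succ e ih => rw [pow_succ, pow_succ]; exact Cg.mu (pow_mem ha e) ha' ih h

theorem Cg.sm {n : ℕ} {ι : Type} (S : Finset ι) (a b : ι → C.Q) (h : ∀ i ∈ S, Cg C n (a i) (b i)) :
    Cg C n (∑ i ∈ S, a i) (∑ i ∈ S, b i) := by
  classical
  induction S using Finset.induction_on with
  | empty => simpa using Cg.rf n 0
  | insert i S hi ih =>
    rw [Finset.sum_insert hi, Finset.sum_insert hi]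
    exact (h i (Finset.mem_insert_self _ _)).ad (ih fun j hj => h j (Finset.mem_insert_of_mem hj))

theorem s_mem : C.s ∈ C.AI := Algebra.subset_adjoin (Set.mem_insert _ _)

theorem Y_mem {i : ℕ} (hi : i < m) : C.Y i ∈ C.AI :=
  Algebra.subset_adjoin (Set.mem_insert_of_mem _ ⟨i, hi, rfl⟩)

theorem mono_pow (hA : C.HA) {n P e J : ℕ} (hP : d * n ≤ P) (hJ : J < d ^ m)
    (h : ¬ (J = 0 ∧ e = 0)) : ∃ r ∈ C.AI, C.mono e J ^ P = C.s ^ n * r := by
  have hd := C.hd
  have hpr : ∀ S : Finset ℕ, S ⊆ Finset.range m → ∏ i ∈ S, C.Y i ^ dig d J i ∈ C.AI :=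
    fun S hS => prod_mem fun i hi => pow_mem (Y_mem (Finset.mem_range.1 (hS hi))) _
  rcases Nat.eq_zero_or_pos e with rfl | he
  · have hJ0 : J ≠ 0 := fun e => h ⟨e, rfl⟩
    obtain ⟨i, hi, hdi⟩ : ∃ i < m, dig d J i ≠ 0 := by
      by_contra hc
      push Not at hc
      exact hJ0 (eq_of_dig hJ (pow_pos (by omega) m) fun i hi => by rw [hc i hi]; simp [dig])
    obtain ⟨r, hr, e1⟩ := hA.nil i hi
    obtain ⟨a, ha⟩ : ∃ a, dig d J i * P = d * n + a :=
      Nat.exists_eq_add_of_le (hP.trans (Nat.le_mul_of_pos_left _ (Nat.pos_of_ne_zero hdi)))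
    refine ⟨r ^ n * C.Y i ^ a * (∏ j ∈ (Finset.range m).erase i, C.Y j ^ dig d J j) ^ P,
      mul_mem (mul_mem (pow_mem hr _) (pow_mem (Y_mem hi) _))
        (pow_mem (hpr _ (Finset.erase_subset _ _)) _), ?_⟩
    rw [mono, pow_zero, one_mul, ← Finset.mul_prod_erase _ _ (Finset.mem_range.2 hi), mul_pow,
      ← pow_mul, ha, pow_add, pow_mul, e1]
    ring
  · obtain ⟨a, ha⟩ : ∃ a, e * P = n + a := Nat.exists_eq_add_of_le
      ((Nat.le_mul_of_pos_left n (by omega)).trans (hP.trans (Nat.le_mul_of_pos_left _ he)))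
    refine ⟨C.s ^ a * (∏ j ∈ Finset.range m, C.Y j ^ dig d J j) ^ P,
      mul_mem (pow_mem s_mem _) (pow_mem (hpr _ le_rfl) _), ?_⟩
    rw [mono, mul_pow, ← pow_mul, ha, pow_add]
    ring

theorem hat_pow {p : ℕ} [Fact p.Prime] [CharP C.Q p] (hA : C.HA) {n j M : ℕ}
    (hP : d * n ≤ p ^ j) (c : ℕ → ℕ → k) (hc : c 0 0 = 1) : Cg C n (C.hat M c ^ p ^ j) 1 := by
  classical
  have hd := C.hd
  have h1 : (1 : C.Q) = ∑ J ∈ Finset.range (d ^ m), ∑ e ∈ Finset.range (M + 1 - ds d m J),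
      if J = 0 ∧ e = 0 then (1 : C.Q) else 0 := by
    rw [Finset.sum_eq_single 0, Finset.sum_eq_single 0]
    · simp
    · intro b _ hb; simp [hb]
    · intro h
      refine absurd (Finset.mem_range.2 ?_) h
      rw [ds_eq]; simp [dig]
    · intro b _ hb; simp [hb]
    · intro h; exact absurd (Finset.mem_range.2 (pow_pos (by omega) m)) h
  rw [hat, sum_pow_char_pow]
  conv => enter [4]; rw [h1]
  refine Cg.sm _ _ _ fun J hJ => ?_
  rw [sum_pow_char_pow]
  refine Cg.sm _ _ _ fun e _ => ?_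
  split_ifs with h
  · obtain ⟨rfl, rfl⟩ := h
    have : C.mono 0 0 = 1 := by simp [mono, dig]
    rw [this, hc]
    simpa using Cg.rf n (1 : C.Q)
  · obtain ⟨r, hr, e1⟩ := mono_pow hA hP (Finset.mem_range.1 hJ) h
    refine ⟨algebraMap k C.Q (c e J) ^ p ^ j * r,
      mul_mem (pow_mem (Subalgebra.algebraMap_mem _ _) _) hr, ?_⟩
    rw [mul_pow, e1]; ring

theorem gg_inf {N : ℕ} {u : C.Qˣ} (h : C.GG N u) (v : Place k C.Q) (hv : 1 < v.val C.t) :
    v.val ((u : C.Q) * C.s ^ N - 1) < 1 := by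
  have := h.1 v hv
  rwa [zpow_natCast, Units.val_mul, Units.val_pow_eq_pow_val] at this

/-- One-units are their own `l * Ex`-th powers. -/
theorem one_unit {p l : ℕ} [Fact p.Prime] [CharP C.Q p] (hQ : C.QA) (hA : C.HA) {n j M : ℕ}
    (hP : d * n ≤ p ^ j) {y : C.Q} (hy : y ∈ C.FN M)
    (h1 : ∀ v : Place k C.Q, 1 < v.val C.t → v.val (y - 1) < 1) :
    Cg C n (y ^ (1 + (l - 1) * p ^ j)) y := by
  have hyI : y ∈ C.AI := (hA.memI y).2 ⟨M, hy⟩
  obtain ⟨c, rfl⟩ := (hA.memF M y).1 hy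
  obtain ⟨v, hv⟩ := hQ.inf
  have hc : c 0 0 = 1 :=
    v.const_eq ((hA.infI v hv).2.2.2.2 M c) (by simpa using h1 v hv)
  have h2 := (hat_pow (M := M) hA hP c hc).pw (pow_mem hyI _) (one_mem _) (l - 1)
  have h3 := Cg.mu hyI (pow_mem (one_mem _) _) (Cg.rf n _) h2
  rw [one_pow, mul_one, ← pow_mul] at h3
  rw [pow_add, pow_one, mul_comm (l - 1)]
  exact h3

theorem ex_mul {l p : ℕ} [hl : Fact l.Prime] [hp : Fact p.Prime] (h : l ≠ p) (n : ℕ) :
    l * Ex l p n = 1 + (l - 1) * p ^ ((l - 1) * n) := by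
  refine Nat.mul_div_cancel' ((ZMod.natCast_eq_zero_iff _ _).1 ?_)
  have hp0 : (p : ZMod l) ≠ 0 := by
    rw [Ne, ZMod.natCast_eq_zero_iff]
    intro hd
    exact h ((Nat.prime_dvd_prime_iff_eq hl.out hp.out).1 hd)
  have h1 := ZMod.pow_card_sub_one_eq_one hp0
  push_cast
  rw [pow_mul, h1, one_pow, Nat.cast_sub hl.out.one_le]
  simp

theorem rec_sub (n : ℕ) (c c' : ℕ → ℕ → k) :
    C.rec' n c - C.rec' n c' = C.rec' n fun e J => c e J - c' e J := by
  simp only [rec', ← Finset.sum_sub_distrib, map_sub, sub_mul]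

theorem tq : StmtTQ := by
  intro k _ _ l p d m hl hp _ f C hlp hQ hA hD N n u g hG hU hn hr
  have hl2 := hl.out.two_le
  have hp2 := hp.out.two_le
  obtain ⟨v₀, hv₀⟩ := hQ.inf
  have : Nontrivial C.Q := ⟨⟨0, 1, fun e => by
    have := congrArg v₀.val e
    rw [map_zero, map_one] at this
    exact zero_ne_one this⟩⟩
  have : CharP C.Q p := charP_of_injective_algebraMap (algebraMap k C.Q).injective p
  have hP : d * n ≤ p ^ ((l - 1) * (d * n)) :=
    (Nat.lt_pow_self (by omega : 1 < p)).le.trans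
      (Nat.pow_le_pow_right (by omega) (Nat.le_mul_of_pos_left _ (by omega)))
  have hE := ex_mul hlp (d * n)
  have hNn : N < n := lt_of_le_of_lt (Nat.le_mul_of_pos_left _ (by omega)) hn
  have hlk : (l : k) ≠ 0 := by
    rw [Ne, CharP.cast_eq_zero_iff k p]
    intro hd
    exact hlp ((Nat.prime_dvd_prime_iff_eq hp.out hl.out).1 hd).symm
  set U : C.Q := (u.1 : C.Q) * C.s ^ (l * N) with hUdef
  have hr' : Cg C n (U ^ Ex l p (d * n)) (C.rec' n g) := hr
  have hUI : U ∈ C.AI := (hA.memI U).2 ⟨_, hU⟩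
  rw [Hl.mk_eq_zero]
  constructor
  · rintro ⟨y, rfl⟩
    obtain ⟨n', hn'⟩ := y.2
    have h1 := hD.uniq _ _ _ (hn'.pow l) hG
    have h2 : n' = (N : ℤ) := by
      push_cast at h1
      exact mul_left_cancel₀ (by exact_mod_cast (by omega : l ≠ 0)) h1
    rw [h2] at hn'
    have h3 := hD.root l N y.1 hlk hn' hU
    have h4 : U = ((y.1 : C.Q) * C.s ^ N) ^ l := by
      rw [hUdef, mul_pow, ← pow_mul, mul_comm N l]; rfl
    have h5 := one_unit (l := l) hQ hA hP h3 (gg_inf hn')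
    rw [← hE, pow_mul, ← h4] at h5
    obtain ⟨c, hc⟩ := (hA.memF N _).1 h3
    have h6 := h5.sy.tr hr'
    rw [hc, hA.hat_rec N n c hNn, Cg, rec_sub] at h6
    intro J hJ e he hlt
    have h7 := hA.trunc n _ h6 J hJ e he
    simp only [if_neg (not_le.2 hlt), zero_sub, neg_eq_zero] at h7
    exact h7
  · intro hg
    have h1 : C.rec' n g = C.hat N g := by
      rw [hA.hat_rec N n g hNn, rec', rec']
      refine Finset.sum_congr rfl fun J hJ => Finset.sum_congr rfl fun e he => ?_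
      split_ifs with h
      · rfl
      · rw [hg J (Finset.mem_range.1 hJ) e (Finset.mem_range.1 he) (not_le.1 h)]
    rw [h1] at hr'
    set W := C.hat N g with hW
    have hWF : W ∈ C.FN N := (hA.memF N W).2 ⟨g, rfl⟩
    have hWI : W ∈ C.AI := (hA.memI W).2 ⟨_, hWF⟩
    have h2 := hr'.pw (pow_mem hUI _) hWI l
    rw [← pow_mul, mul_comm _ l, hE] at h2
    have h3 := h2.sy.tr (one_unit (l := l) hQ hA hP hU (gg_inf hG))
    have h4 : W ^ l = U :=
      sub_eq_zero.1 (hA.truncF (l * N) n _ hn (sub_mem (hA.powF N W l hWF) hU) h3)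
    have hts : ∀ e : ℕ, C.t ^ e * C.s ^ e = 1 := fun e => by rw [← mul_pow, C.t_mul_s, one_pow]
    have h5 : W * C.t ^ N * C.s ^ N = W := by rw [mul_assoc, hts, mul_one]
    have h6 : (W * C.t ^ N) ^ l = (u.1 : C.Q) := by
      rw [mul_pow, h4, hUdef, ← pow_mul, mul_comm N l, mul_assoc, mul_comm (C.s ^ _), hts, mul_one]
    obtain ⟨y, hy, hyG⟩ := hD.gg N (W * C.t ^ N) (by rw [h5]; exact hWF) (fun v hv => by
      rw [h5]
      obtain ⟨r, hrI, e1⟩ := hr'
      have a1 : ∀ e : ℕ, v.val (U ^ e - algebraMap k C.Q 1) < 1 := fun e => by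
        induction e with
        | zero => simp
        | succ e ih =>
          have := near_mul ih (show v.val (U - algebraMap k C.Q 1) < 1 by
            simpa using gg_inf hG v hv)
          rwa [← pow_succ, mul_one] at this
      have a2 : v.val (C.s ^ n * r) < 1 := by
        rw [map_mul, map_pow]
        exact mul_lt_one_of_lt_of_le (pow_lt_one₀ zero_le (hA.infI v hv).1 (by omega))
          ((hA.infI v hv).2.2.2.1 r hrI)
      have a3 : W - 1 = (U ^ Ex l p (d * n) - algebraMap k C.Q 1) - C.s ^ n * r := by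
        rw [map_one]; linear_combination -e1
      rw [a3]
      exact (v.val.map_sub _ _).trans_lt (max_lt (a1 _) a2)) (fun v hv => by
      have a1 := hD.bad _ _ hG v hv
      rw [← h6] at a1
      have a2 : v.val (W * C.t ^ N) ≠ 0 := fun e => by
        rw [map_pow, e, zero_pow (by omega)] at a1
        exact zero_ne_one a1
      have a3 := v.ord_of_val_one a1
      rw [v.ord_pow] at a3
      exact (v.val_one_iff a2).2 ((mul_eq_zero.1 a3).resolve_left
        (by exact_mod_cast (by omega : l ≠ 0))))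
    refine ⟨⟨y, N, hyG⟩, Subtype.ext (Units.ext ?_)⟩
    change ((y ^ l : C.Qˣ) : C.Q) = _
    rw [Units.val_pow_eq_pow_val, hy, h6]

end Pool.Agent.MP_cce4c9_lc.H62
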